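import Pool.Agent.H97.PR.Targets

set_option autoImplicit false

namespace Pool.Agent.H78.PR

open Finset Pool.Agent.H97.PR

theorem cnt_mono {n : ℕ} {p q : E n → Prop} (h : ∀ x, p x → q x) : cnt p ≤ cnt q := by
  classical
  unfold cnt
  refine card_le_card fun x hx => ?_
  rw [mem_filter] at hx ⊢
  exact ⟨hx.1, h x hx.2⟩

theorem cnt_add {n : ℕ} {p q r : E n → Prop} (hp : ∀ x, p x → r x) (hq : ∀ x, q x → r x)
    (hd : ∀ x, p x → ¬ q x) : cnt p + cnt q ≤ cnt r := by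
  classical
  unfold cnt
  rw [← card_union_of_disjoint]
  · refine card_le_card fun x hx => ?_
    rw [mem_union, mem_filter, mem_filter] at hx
    rw [mem_filter]
    rcases hx with hx | hx
    · exact ⟨hx.1, hp x hx.2⟩
    · exact ⟨hx.1, hq x hx.2⟩
  · rw [Finset.disjoint_left]
    intro x hx hx'
    rw [mem_filter] at hx hx'
    exact hd x hx.2 hx'.2

theorem pf_CVR (hRKC : T_RKC) (hCST : T_CST) (hLEF : T_LEF) (hSTP : T_STP) : T_CVR := by
  intro n N k m blk γ B D q σ g F G hEnv S A h hDag s δ₀ h₀ hsm i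
  induction i using Nat.strong_induction_on with
  | _ i ih =>
  intro a V Cl hiS hSta hsub hpot
  by_cases hsmall : dm V + γ * Cl.card ≤ γ * N + B * q
  · have h1 := hsm i a V Cl hiS hSta hsub hsmall hpot
    have h2 : 2 ^ dm V ≤ cnt fun x => x ∈ pc a V ∧
        ∃ u, u < S ∧ cnt (fun y => y ∈ A u) ≤ 2 ^ s ∧ x ∈ A u := by
      rw [← (hRKC n N blk V Cl).2.1 a]
      exact cnt_mono fun x hx => ⟨hx, i, hiS, h1, hsub hx⟩
    calc 2 ^ dm V ≤ 1 * cnt fun x => x ∈ pc a V ∧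
          ∃ u, u < S ∧ cnt (fun y => y ∈ A u) ≤ 2 ^ s ∧ x ∈ A u := by rw [one_mul]; exact h2
      _ ≤ _ := Nat.mul_le_mul_right _ (Nat.one_le_pow _ _ (by norm_num))
  · rw [not_le] at hsmall
    rcases hDag.step i hiS with hL | ⟨j, hji, hhj, hAj⟩ | ⟨j, l, hji, hli, hhj, hhl, hA⟩
    · exact absurd (hLEF n N k m blk γ B D q σ g F G hEnv a V Cl (A i) hSta hsub hL)
        (not_le.2 hsmall)
    · exact ih j hji a V Cl (hji.trans hiS) hSta (hsub.trans hAj) (by omega)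
    · rcases hSTP n N k m blk γ B D q σ g F G hEnv a V Cl (A j) (A l)
        (hDag.aff j (hji.trans hiS)) (hDag.aff l (hli.trans hiS)) hSta (hsub.trans hA) hsmall with
        hP | hQ | ⟨V₁, Cl₁, R₁, R₂, hCl, hdm, hR1P, hR1a, hR2Q, hR2a, hdis, -, -, hS1, hS2,
          hc1, hc2⟩
      · exact ih j hji a V Cl (hji.trans hiS) hSta hP (by omega)
      · exact ih l hli a V Cl (hli.trans hiS) hSta hQ (by omega)
      · have e1 := hCST n V₁ R₁ (4 ^ (N - Cl₁.card))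
          (fun x => ∃ u, u < S ∧ cnt (fun y => y ∈ A u) ≤ 2 ^ s ∧ x ∈ A u)
          (fun x hx => (hS1 x hx).2)
          (fun x hx => ih j hji x V₁ Cl₁ (hji.trans hiS) (hS1 x hx).1
            ((hS1 x hx).2.trans hR1P) (by omega))
        have e2 := hCST n V₁ R₂ (4 ^ (N - Cl₁.card))
          (fun x => ∃ u, u < S ∧ cnt (fun y => y ∈ A u) ≤ 2 ^ s ∧ x ∈ A u)
          (fun x hx => (hS2 x hx).2)
          (fun x hx => ih l hli x V₁ Cl₁ (hli.trans hiS) (hS2 x hx).1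
            ((hS2 x hx).2.trans hR2Q) (by omega))
        have e3 : (cnt fun y => y ∈ R₁ ∧ ∃ u, u < S ∧ cnt (fun y => y ∈ A u) ≤ 2 ^ s ∧ y ∈ A u) +
            (cnt fun y => y ∈ R₂ ∧ ∃ u, u < S ∧ cnt (fun y => y ∈ A u) ≤ 2 ^ s ∧ y ∈ A u) ≤
            cnt fun y => y ∈ pc a V ∧ ∃ u, u < S ∧ cnt (fun y => y ∈ A u) ≤ 2 ^ s ∧ y ∈ A u :=
          cnt_add (fun x hx => ⟨hR1a hx.1, hx.2⟩) (fun x hx => ⟨hR2a hx.1, hx.2⟩)
            (fun x hx hx' => (Set.disjoint_left.1 hdis) hx.1 hx'.1)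
        have hcN : Cl₁.card ≤ N := by
          have := card_le_univ Cl₁
          rwa [Fintype.card_fin] at this
        have hcc : Cl.card ≤ Cl₁.card := card_le_card hCl
        have e4 : 4 ^ (N - Cl.card) = 4 ^ (Cl₁.card - Cl.card) * 4 ^ (N - Cl₁.card) := by
          rw [← pow_add]
          congr 1
          omega
        rw [e4]
        generalize (cnt fun y => y ∈ R₁ ∧
          ∃ u, u < S ∧ cnt (fun y => y ∈ A u) ≤ 2 ^ s ∧ y ∈ A u) = r1 at e1 e3
        generalize (cnt fun y => y ∈ R₂ ∧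
          ∃ u, u < S ∧ cnt (fun y => y ∈ A u) ≤ 2 ^ s ∧ y ∈ A u) = r2 at e2 e3
        generalize (cnt fun y => y ∈ pc a V ∧
          ∃ u, u < S ∧ cnt (fun y => y ∈ A u) ≤ 2 ^ s ∧ y ∈ A u) = r3 at e3 ⊢
        generalize 4 ^ (Cl₁.card - Cl.card) = T at hc1 hc2 ⊢
        generalize 4 ^ (N - Cl₁.card) = M at e1 e2 ⊢
        have f1 : 2 * T * cnt (fun x => x ∈ R₁) ≤ 2 * T * (M * r1) := Nat.mul_le_mul_left _ e1
        have f2 : 2 * T * cnt (fun x => x ∈ R₂) ≤ 2 * T * (M * r2) := Nat.mul_le_mul_left _ e2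
        have f3 : 2 * T * (M * r1) + 2 * T * (M * r2) ≤ 2 * (T * M * r3) := by
          calc 2 * T * (M * r1) + 2 * T * (M * r2) = 2 * (T * M * (r1 + r2)) := by ring
            _ ≤ 2 * (T * M * r3) := Nat.mul_le_mul_left _ (Nat.mul_le_mul_left _ e3)
        omega

end Pool.Agent.H78.PR
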